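import Pool.Agent.X212.Shift.Main

/-!
# Finitely colourable shift graph sections whose complement has no full Borel uniformization
-/

namespace Pool.Agent.Results.MP_bd9785_lc.NoFullUniformization

open Pool.Agent.X212.Shift

/-- The negated form of Q1: there is a Borel set `B` of pairs of a point of the Baire space and an
infinite set of natural numbers such that the shift graph restricted to each section of `B` has
finite Borel chromatic number, while no Borel function selects a point outside every section. -/
theorem result : ∃ B : Set ((ℕ → ℕ) × InfSub), MeasurableSet B ∧
    (∀ x, FiniteBorelChromatic {y | (x, y) ∈ B}) ∧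
    ¬ ∃ f : (ℕ → ℕ) → InfSub, Measurable f ∧ ∀ x, (x, f x) ∉ B :=
  main

end Pool.Agent.Results.MP_bd9785_lc.NoFullUniformization
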